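import Pool.Agent.W295.PR.Stm

/-! Project PR (MP_35c333_an, helper295), piece LT0. -/

set_option autoImplicit false
set_option linter.unusedSectionVars false

open Topology

namespace Pool.Agent.W155.PR.LT0

open Pool.Agent.W295.PR

section

variable {G : Type} [Group G] [TopologicalSpace G] [IsTopologicalGroup G]

theorem act_mul {H : Subgroup G} {D : ℕ} (f g : RR D → G) (y : RR D → G ⧸ H) :
    act (f * g) y = act f (act g y) := by
  funext q
  simp only [act, Pi.mul_apply, mul_smul]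

theorem act_one {H : Subgroup G} {D : ℕ} (y : RR D → G ⧸ H) :
    act (1 : RR D → G) y = y := by
  funext q
  simp only [act, Pi.one_apply, one_smul]

theorem continuous_act {H : Subgroup G} {D : ℕ} (f : RR D → G) :
    Continuous (fun y : RR D → G ⧸ H => act f y) :=
  continuous_pi fun q => (continuous_const_smul (f q)).comp (continuous_apply q)

theorem continuous_sg (N : Nil G) {H : Subgroup G} {D : ℕ} (e : ℤ) :
    Continuous (fun y : RR D → G ⧸ H => sg N D e y) :=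
  continuous_pi fun q => (continuous_const_smul (N.a ^ (ev D e q))).comp
    (continuous_apply (tau D e q))

theorem continuous_T (N : Nil G) {H : Subgroup G} {D : ℕ} :
    Continuous (fun y : RR D → G ⧸ H => fun q => N.a • y q) :=
  continuous_pi fun q => (continuous_const_smul N.a).comp (continuous_apply q)

theorem sg_act (N : Nil G) {H : Subgroup G} {D : ℕ} (e : ℤ) (f : RR D → G) (y : RR D → G ⧸ H) :
    sg N D e (act f y) = act (cj N D e f) (sg N D e y) := by
  funext q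
  simp only [sg, act, cj, ← mul_smul]
  congr 1
  group

theorem T_act (N : Nil G) {H : Subgroup G} {D : ℕ} (f : RR D → G) (y : RR D → G ⧸ H) :
    (fun q => N.a • act f y q) = act (fun q => N.a * f q * N.a⁻¹) (fun q => N.a • y q) := by
  funext q
  simp only [act, ← mul_smul]
  congr 1
  group

theorem smul_one_eq {H : Subgroup G} (g : G) :
    g • ((1 : G) : G ⧸ H) = ((g : G) : G ⧸ H) := by
  have : g • ((1 : G) : G ⧸ H) = ((g * 1 : G) : G ⧸ H) := rfl
  rw [this, mul_one]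

theorem smul_one_eq_iff {H : Subgroup G} (g h : G) :
    g • ((1 : G) : G ⧸ H) = h • ((1 : G) : G ⧸ H) ↔ g⁻¹ * h ∈ H := by
  rw [smul_one_eq, smul_one_eq, QuotientGroup.eq]

theorem w0_apply {H : Subgroup G} {D : ℕ} (q : RR D) : w0 H D q = ((1 : G) : G ⧸ H) := rfl

theorem a_one (N : Nil G) {H : Subgroup G} (h : N.Γ ≤ H) :
    N.a • ((1 : G) : G ⧸ H) = N.g0 • ((1 : G) : G ⧸ H) := by
  refine ((smul_one_eq_iff N.g0 N.a).2 (h N.gam_mem)).symm

theorem gpp_mem (N : Nil G) (D : ℕ) (e : ℤ) {u x v : G} (hu : u ∈ N.G0) (hx : x ∈ N.G0)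
    (hv : v ∈ N.G0) : gpp N D e u x v ∈ PP N D :=
  Subgroup.subset_closure ⟨e, u, x, v, hu, hx, hv, rfl⟩

theorem w0_mem (N : Nil G) (H : Subgroup G) (D : ℕ) : w0 H D ∈ Om N H D :=
  subset_closure ⟨1, (PP N D).one_mem, (act_one _).symm⟩

theorem act_mem (N : Nil G) (H : Subgroup G) (D : ℕ) {f : RR D → G} (hf : f ∈ PP N D)
    {y : RR D → G ⧸ H} (hy : y ∈ Om N H D) : act f y ∈ Om N H D := by
  refine map_mem_closure (continuous_act f) hy ?_
  rintro z ⟨g, hg, rfl⟩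
  exact ⟨f * g, (PP N D).mul_mem hf hg, (act_mul _ _ _).symm⟩

theorem T_w0 (N : Nil G) {H : Subgroup G} (h : N.Γ ≤ H) (D : ℕ) (hev : ∀ q, ev D 0 q = 0) :
    (fun q => N.a • w0 H D q) = act (gpp N D 0 1 N.g0 1) (w0 H D) := by
  funext q
  simp only [act, w0_apply, gpp, hev, zpow_zero, one_mul, inv_one, mul_one]
  exact a_one N h

theorem T_mem (hP : S_PPn) (N : Nil G) {H : Subgroup G} (h : N.Γ ≤ H) (D : ℕ)
    (hev : ∀ q, ev D 0 q = 0) {y : RR D → G ⧸ H} (hy : y ∈ Om N H D) :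
    (fun q => N.a • y q) ∈ Om N H D := by
  refine map_mem_closure (continuous_T N) hy ?_
  rintro z ⟨g, hg, rfl⟩
  refine ⟨(fun q => N.a * g q * N.a⁻¹) * gpp N D 0 1 N.g0 1,
    (PP N D).mul_mem ((hP G N D).2.1 g hg) (gpp_mem N D 0 N.G0.one_mem N.g0_mem N.G0.one_mem), ?_⟩
  rw [act_mul, ← T_w0 N h D hev, ← T_act]

theorem sg_w0 (N : Nil G) {H : Subgroup G} (h : N.Γ ≤ H) (D : ℕ) (e : ℤ) :
    sg N D e (w0 H D) = act (gpp N D e 1 1 N.g0⁻¹) (w0 H D) := by
  funext q
  simp only [act, w0_apply, gpp, sg, one_mul, mul_one]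
  rw [smul_one_eq_iff]
  have : (N.a ^ ev D e q)⁻¹ * (N.a ^ ev D e q * ((N.g0⁻¹ * N.a) ^ ev D e q)⁻¹) =
    ((N.g0⁻¹ * N.a) ^ ev D e q)⁻¹ := by group
  rw [this]
  exact H.inv_mem (H.zpow_mem (h N.gam_mem) _)

theorem sg_mem (hP : S_PPn) (N : Nil G) {H : Subgroup G} (h : N.Γ ≤ H) (D : ℕ)
    (e : ℤ) {y : RR D → G ⧸ H} (hy : y ∈ Om N H D) :
    sg N D e y ∈ Om N H D := by
  refine map_mem_closure (continuous_sg N e) hy ?_
  rintro z ⟨g, hg, rfl⟩
  refine ⟨cj N D e g * gpp N D e 1 1 N.g0⁻¹,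
    (PP N D).mul_mem ((hP G N D).1 e g hg)
      (gpp_mem N D e N.G0.one_mem N.G0.one_mem (N.G0.inv_mem N.g0_mem)), ?_⟩
  rw [act_mul, ← sg_w0 N h D e, ← sg_act]

theorem sg_sg (hE : S_EV) (N : Nil G) {H : Subgroup G} (D : ℕ)
    (e f : ℤ) (y : RR D → G ⧸ H) : sg N D e (sg N D f y) = sg N D (e + f) y := by
  funext q
  simp only [sg, ← mul_smul]
  rw [(hE D e f q 0).1, (hE D f e q 0).2.1, add_comm f e]
  congr 1
  rw [← zpow_add]
  congr 1
  ring

theorem sg_zero (hE : S_EV) (N : Nil G) {H : Subgroup G} (D : ℕ)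
    (y : RR D → G ⧸ H) : sg N D 0 y = y := by
  funext q
  simp only [sg]
  rw [(hE D 0 0 q 0).2.2.1, (hE D 0 0 q 0).2.2.2.2.2.2.2, zpow_zero, one_smul]

theorem phi_sg (hP : S_PPn) (hE : S_EV) (N : Nil G) {H : Subgroup G} (h : N.Γ ≤ H) (D : ℕ)
    (φ : (RR D → G ⧸ H) → Circle) (hφ : ∀ y ∈ Om N H D, φ (sg N D 1 y) = φ y) (e : ℤ)
    {y : RR D → G ⧸ H} (hy : y ∈ Om N H D) : φ (sg N D e y) = φ y := by
  have key : ∀ n : ℕ, ∀ y ∈ Om N H D, φ (sg N D (n : ℤ) y) = φ y := by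
    intro n
    induction n with
    | zero =>
      intro y _
      rw [Nat.cast_zero, sg_zero hE]
    | succ n ih =>
      intro y hy
      have h1 : sg N D ((n + 1 : ℕ) : ℤ) y = sg N D 1 (sg N D (n : ℤ) y) := by
        rw [sg_sg hE]
        congr 1
        push_cast
        ring
      rw [h1, hφ _ (sg_mem hP N h D _ hy), ih y hy]
  obtain ⟨n, rfl | rfl⟩ := Int.eq_nat_or_neg e
  · exact key n y hy
  · have h1 := key n (sg N D (-(n : ℤ)) y) (sg_mem hP N h D _ hy)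
    rw [sg_sg hE, add_neg_cancel, sg_zero hE] at h1
    exact h1.symm

theorem main (hP : S_PPn) (hE : S_EV) : S_LT0 := by
  intro G _ _ _ N D H hH hΓ φ lam hd
  have hev : ∀ q, ev D 0 q = 0 := fun q => (hE D 0 0 q 0).2.2.2.2.2.2.2
  have hw := w0_mem N H D
  have hsg : ∀ e : ℤ, ∀ y ∈ Om N H D, φ (sg N D e y) = φ y := fun e y hy =>
    phi_sg hP hE N hΓ D φ hd.invS e hy
  have hlam : ∀ f ∈ PP N D, ∀ y ∈ Om N H D, φ (act f y) = φ y → lam f = 1 := by
    intro f hf y hy h1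
    rw [hd.eq f hf y hy] at h1
    exact mul_eq_right.1 h1
  refine ⟨?_, ?_, ?_, ?_, ?_, ?_, ?_, ?_⟩
  · intro f hf g hg
    have h1 := hd.eq (f * g) ((PP N D).mul_mem hf hg) _ hw
    rw [act_mul, hd.eq f hf _ (act_mem N H D hg hw), hd.eq g hg _ hw, ← mul_assoc] at h1
    exact (mul_right_cancel h1).symm
  · intro f hf
    have h1 := hd.eq _ ((hP G N D).2.1 f hf) _ (T_mem hP N hΓ D hev hw)
    rw [← T_act, hd.invT _ (act_mem N H D hf hw), hd.eq f hf _ hw, hd.invT _ hw] at h1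
    exact (mul_right_cancel h1).symm
  · intro e f hf
    have h1 := hd.eq _ ((hP G N D).1 e f hf) _ (sg_mem hP N hΓ D e hw)
    rw [← sg_act, hsg e _ (act_mem N H D hf hw), hd.eq f hf _ hw, hsg e _ hw] at h1
    exact (mul_right_cancel h1).symm
  · intro f hf h1
    refine hlam f hf _ hw ?_
    congr 1
    funext q
    simp only [act, w0_apply]
    rw [smul_one_eq, QuotientGroup.eq, mul_one]
    exact H.inv_mem (hΓ (h1 q))
  · intro e γ hγ hγ0
    have h2 : gpp N D e 1 γ 1 = fun q => N.a ^ (ev D e q) * γ * (N.a ^ (ev D e q))⁻¹ := by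
      funext q
      simp only [gpp, one_mul]
    rw [← h2]
    refine hlam _ (gpp_mem N D e N.G0.one_mem hγ0 N.G0.one_mem) _ (sg_mem hP N hΓ D e hw) ?_
    congr 1
    funext q
    simp only [act, gpp, sg, w0_apply, one_mul, ← mul_smul]
    rw [smul_one_eq_iff]
    have : (N.a ^ ev D e q * γ * (N.a ^ ev D e q)⁻¹ * N.a ^ ev D e q)⁻¹ * N.a ^ ev D e q = γ⁻¹ := by
      group
    rw [this]
    exact H.inv_mem (hΓ hγ)
  · intro e
    have h2 : gpp N D e 1 N.g0 1 = fun q => N.a ^ (ev D e q) * N.g0 * (N.a ^ (ev D e q))⁻¹ := by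
      funext q
      simp only [gpp, one_mul]
    rw [← h2]
    refine hlam _ (gpp_mem N D e N.G0.one_mem N.g0_mem N.G0.one_mem) _ (sg_mem hP N hΓ D e hw) ?_
    have h3 : act (gpp N D e 1 N.g0 1) (sg N D e (w0 H D)) =
        fun q => N.a • (sg N D e (w0 H D)) q := by
      funext q
      simp only [act, gpp, sg, w0_apply, one_mul, ← mul_smul]
      rw [smul_one_eq_iff]
      have : (N.a ^ ev D e q * N.g0 * (N.a ^ ev D e q)⁻¹ * N.a ^ ev D e q)⁻¹ *
          (N.a * N.a ^ ev D e q) = N.g0⁻¹ * N.a := by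
        group
      rw [this]
      exact hΓ N.gam_mem
    rw [h3, hd.invT _ (sg_mem hP N hΓ D e hw)]
  · have h2 : gpp N D 1 1 1 N.g0⁻¹ =
        fun q => N.a ^ (ev D 1 q) * ((N.g0⁻¹ * N.a) ^ (ev D 1 q))⁻¹ := by
      funext q
      simp only [gpp, one_mul, mul_one]
    rw [← h2]
    refine hlam _ (gpp_mem N D 1 N.G0.one_mem N.G0.one_mem (N.G0.inv_mem N.g0_mem)) _ hw ?_
    rw [← sg_w0 N hΓ D 1, hsg 1 _ hw]
  · intro Z _ F hF hFc
    have h1 : (fun z => lam (F z)) = fun z => φ (act (F z) (w0 H D)) * (φ (w0 H D))⁻¹ := by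
      funext z
      rw [hd.eq _ (hF z) _ hw, mul_inv_cancel_right]
    rw [h1]
    have h2 : Continuous fun z => (act (F z) (w0 H D) : RR D → G ⧸ H) := by
      refine continuous_pi fun q => ?_
      have h3 : (fun z => act (F z) (w0 H D) q) = fun z => ((F z q : G) : G ⧸ H) := by
        funext z
        simp only [act, w0_apply]
        exact smul_one_eq _
      rw [h3]
      exact QuotientGroup.continuous_mk.comp (hFc q)
    exact (hd.cont.comp_continuous h2 fun z => act_mem N H D (hF z) hw).mul continuous_const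

end

end Pool.Agent.W155.PR.LT0
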